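import Pool.Agent.T9h94.CZ.Fin6

set_option autoImplicit false

/-!
# Direct factors which do not influence whether a group is condensed

A group `P` is called neutral if for every group `G` the group `G × P` is condensed exactly when `G`
is. Finitely presented groups with finitely generated centre which are linear over a field or, more
generally, equationally Noetherian, are neutral. So the answer to Q1 is positive for all pairs
`G × P`, `G × Q` with neutral `P` and `Q` (for instance nonabelian free groups, which are
elementarily equivalent) and for all pairs `G`, `H` with `G × P ≃* H × Q` (for instance the classical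
pairs with `G × ℤ ≃* H × ℤ`).
-/

namespace Pool.Agent.Results.MP_f5330b_al.DirectFactors

open Pool.Agent.H67R3.CondDefs

/-- Equationally Noetherian groups (equations without coefficients): every system `S` of equations
`w = 1` in finitely many variables is equivalent over `P` to a finite subsystem. -/
def EquationallyNoetherian (P : Type) [Group P] : Prop :=
  ∀ (n : ℕ) (S : Set (FreeGroup (Fin n))), ∃ T : Set (FreeGroup (Fin n)), T.Finite ∧ T ⊆ S ∧
    ∀ x : Fin n → P, (∀ w ∈ T, FreeGroup.lift x w = 1) → ∀ w ∈ S, FreeGroup.lift x w = 1

/-- `P` is isomorphic to a subgroup of `GL_d(K)` for a field `K` and some `d`. -/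
def LinearGroup (P : Type) [Group P] : Prop :=
  ∃ (K : Type) (_ : Field K) (d : ℕ) (φ : P →* Matrix.GeneralLinearGroup (Fin d) K),
    Function.Injective φ

/-- For all groups `G`: the group `G × P` is condensed if and only if `G` is condensed. -/
def NeutralFactor (P : Type) [Group P] : Prop :=
  ∀ (G : Type) [Group G], Condensed (G × P) ↔ Condensed G

/-- (1) Finitely presented groups with finitely generated centre which are equationally Noetherian
or linear over a field are neutral. In particular (2) free groups of finite rank, (3) finitely
generated abelian groups, (4) finite groups are neutral. (5) Direct products of neutral groups are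
neutral. (6) If `P` and `Q` are neutral then `G × P` is condensed if and only if `G × Q` is; and if
moreover `G × P` and `H × Q` are isomorphic then `G` is condensed if and only if `H` is. -/
theorem result :
    (∀ (P : Type) [Group P], Group.IsFinitelyPresented P → Group.FG (Subgroup.center P) →
      (EquationallyNoetherian P ∨ LinearGroup P) → NeutralFactor P) ∧
    (∀ m : ℕ, NeutralFactor (FreeGroup (Fin m))) ∧
    (∀ (P : Type) [CommGroup P], Group.FG P → NeutralFactor P) ∧
    (∀ (P : Type) [Group P], Finite P → NeutralFactor P) ∧
    (∀ (P Q : Type) [Group P] [Group Q],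
      NeutralFactor P → NeutralFactor Q → NeutralFactor (P × Q)) ∧
    ∀ (P Q : Type) [Group P] [Group Q], NeutralFactor P → NeutralFactor Q →
      ∀ (G H : Type) [Group G] [Group H], (Condensed (G × P) ↔ Condensed (G × Q)) ∧
        (Nonempty (G × P ≃* H × Q) → (Condensed G ↔ Condensed H)) := by
  refine ⟨?_, Pool.Agent.T9h94.CZ.free_neutral, ?_, ?_, ?_, ?_⟩
  · rintro P _ hfp hA (hE | ⟨K, _, d, φ, hφ⟩)
    · exact Pool.Agent.T9h94.CZ.main_neutral P hfp (Pool.Agent.T9h94.CZ.eqN_of_fin P hE) hA
    · exact Pool.Agent.T9h94.CZ.main_neutral P hfp
        (Pool.Agent.T9h94.CZ.eqN_of_linear P K d φ hφ) hA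
  · intro P _ hP
    exact Pool.Agent.T9h94.CZ.comm_neutral P hP
  · intro P _ hP
    exact Pool.Agent.T9h94.CZ.finite_neutral P
  · intro P Q _ _ h1 h2
    exact Pool.Agent.T9h94.CZ.Neutral.prod h1 h2
  · intro P Q _ _ h1 h2 G H _ _
    refine ⟨(h1 G).trans (h2 G).symm, ?_⟩
    rintro ⟨e⟩
    exact Pool.Agent.T9h94.CZ.Neutral.cancel h1 h2 e

end Pool.Agent.Results.MP_f5330b_al.DirectFactors
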