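import Pool.Agent.T9h94.PI.Two

set_option autoImplicit false

/-!
# Direct products of centreless directly indecomposable groups

A direct product of finitely many finitely generated groups `G i`, each of them nontrivial, with
trivial centre and not a direct product of two nontrivial groups, is condensed if and only if at
least one of the factors is condensed. So for pairs of such products Q1 reduces to the factors. No
finite presentability, no equational Noetherianity and no Hopf property is assumed.
-/

namespace Pool.Agent.Results.MP_f5330b_al.ProductsOfIndecomposables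

open Pool.Agent.H67R3.CondDefs

/-- `P` is nontrivial, its centre is trivial, and `P` is not isomorphic to a direct product of two
nontrivial groups. -/
def CentrelessIndecomposable (P : Type) [Group P] : Prop :=
  Nontrivial P ∧ Subgroup.center P = ⊥ ∧
    ∀ (A B : Type) [Group A] [Group B], Nonempty (P ≃* A × B) → Subsingleton A ∨ Subsingleton B

/-- (1) Let `G i` (`i` in a finite set) be finitely generated centreless indecomposable groups. Then
the product of the `G i` is condensed if and only if some `G i` is. (2) The case of two factors.
(3) The case of equal factors: a power of `G` with a nonempty finite set of exponents is condensed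
if and only if `G` is. (4) If condensedness passes from `G i` to `H i` for each `i`, then it passes
from the product of the `G i` to the product of the `H i`. -/
theorem result :
    (∀ (ι : Type) [Finite ι] (G : ι → Type) [∀ i, Group (G i)],
      (∀ i, Group.FG (G i) ∧ CentrelessIndecomposable (G i)) →
        (Condensed (∀ i, G i) ↔ ∃ i, Condensed (G i))) ∧
    (∀ (G H : Type) [Group G] [Group H], Group.FG G → CentrelessIndecomposable G →
      Group.FG H → CentrelessIndecomposable H →
        (Condensed (G × H) ↔ (Condensed G ∨ Condensed H))) ∧
    (∀ (ι : Type) [Finite ι] [Nonempty ι] (G : Type) [Group G], Group.FG G →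
      CentrelessIndecomposable G → (Condensed (ι → G) ↔ Condensed G)) ∧
    ∀ (ι : Type) [Finite ι] (G H : ι → Type) [∀ i, Group (G i)] [∀ i, Group (H i)],
      (∀ i, Group.FG (G i) ∧ CentrelessIndecomposable (G i)) →
      (∀ i, Group.FG (H i) ∧ CentrelessIndecomposable (H i)) →
      (∀ i, Condensed (G i) → Condensed (H i)) → Condensed (∀ i, G i) → Condensed (∀ i, H i) := by
  have hmain : ∀ (ι : Type) [Finite ι] (G : ι → Type) [∀ i, Group (G i)],
      (∀ i, Group.FG (G i) ∧ CentrelessIndecomposable (G i)) →
        (Condensed (∀ i, G i) ↔ ∃ i, Condensed (G i)) := by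
    intro ι _ G _ h
    classical
    have : Fintype ι := Fintype.ofFinite ι
    exact Pool.Agent.T9h94.PI.condensed_pi_iff (fun i => (h i).1)
      (fun i => Pool.Agent.T9h94.PI.prim_of (h i).2.2.1 (h i).2.2.2) (fun i => (h i).2.1)
  refine ⟨hmain, ?_, ?_, ?_⟩
  · intro G H _ _ h1 h2 h3 h4
    exact Pool.Agent.T9h94.PI.condensed_two G H h1 h3
      (Pool.Agent.T9h94.PI.prim_of h2.2.1 h2.2.2) (Pool.Agent.T9h94.PI.prim_of h4.2.1 h4.2.2)
      h2.1 h4.1
  · intro ι _ hne G _ h1 h2
    rw [hmain ι (fun _ => G) fun _ => ⟨h1, h2⟩]
    exact ⟨fun ⟨_, h⟩ => h, fun h => ⟨hne.some, h⟩⟩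
  · intro ι _ G H _ _ h1 h2 h3 h4
    obtain ⟨i, hi⟩ := (hmain ι G h1).1 h4
    exact (hmain ι H h2).2 ⟨i, h3 i hi⟩

end Pool.Agent.Results.MP_f5330b_al.ProductsOfIndecomposables
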